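import Pool.Agent.KD.Final
import Pool.Agent.KD.Data
import Pool.Agent.KD.Distr

/-!
# MP_11a591_an: the closed loop need not have any solution

For every `L > 0` there are continuous linear functionals `F₁, F₂` on `X₀ = L²(0,L) × L²(0,L)` and
a `C²` function `w0` with `(0, w0) ∈ X̄₂` and `F₁(0, w0) = F₂(0, w0) = 0`, such that for no `c ≠ 0`
and no `T > 0` the KdV-KdV system with the boundary feedback
`η_x(0,t) = F₁(η(t), w(t))`, `w_x(L,t) = F₂(η(t), w(t))` has a solution on `[0,T]` with values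
bounded in `H²(0,L)` and with initial datum `(0, c w0)`.
-/

open MeasureTheory Set

namespace Pool.Agent.Results.MP_11a591_an.NoLocalSolution

open Pool.Agent.KD

/-- The space `L²(0,L)`. -/
abbrev L2 (L : ℝ) : Type := Lp ℝ 2 (volume.restrict (Ioo (0 : ℝ) L))

/-- The space `X₀ = L²(0,L) × L²(0,L)`. -/
abbrev X0 (L : ℝ) : Type := L2 L × L2 L

/-- `F(f, g) = v`, where the functions `f` and `g` are regarded as elements of `L²(0,L)`. -/
def HasValue (L : ℝ) (F : X0 L →L[ℝ] ℝ) (f g : ℝ → ℝ) (v : ℝ) : Prop :=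
  ∃ u₁ u₂ : L2 L, u₁ =ᵐ[volume.restrict (Ioo (0 : ℝ) L)] f ∧
    u₂ =ᵐ[volume.restrict (Ioo (0 : ℝ) L)] g ∧ F (u₁, u₂) = v

/-- `(f, g)` is in the space `X̄₂`: both are in `H²(0,L) ∩ H¹₀(0,L)`, and `f'(0) = g'(L) = 0`. -/
def InX2 (L : ℝ) (f g : ℝ → ℝ) : Prop :=
  ∃ f1 f2 g1 g2 : ℝ → ℝ, IsH2 L f f1 f2 ∧ IsH2 L g g1 g2 ∧
    f 0 = 0 ∧ f L = 0 ∧ g 0 = 0 ∧ g L = 0 ∧ f1 0 = 0 ∧ g1 L = 0

/-- `(η, w)` is a solution on `[0,T]` of the closed loop with the feedback `F₁, F₂` and the initial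
datum `(η0, w0)`: it solves the system in the sense of `IsDSol`, its Neumann traces are
`η_x(0,t) = F₁(η(t), w(t))` and `w_x(L,t) = F₂(η(t), w(t))` for `0 < t ≤ T`, and it takes the
initial values `η0`, `w0` on `[0,L]`. -/
def IsSolution (L T : ℝ) (F₁ F₂ : X0 L →L[ℝ] ℝ) (η0 w0 : ℝ → ℝ) (η w : ℝ → ℝ → ℝ) : Prop :=
  ∃ η1 η2 w1 w2 : ℝ → ℝ → ℝ, IsDSol L T η η1 η2 w w1 w2 ∧
    (∀ t ∈ Ioc (0 : ℝ) T, HasValue L F₁ (η t) (w t) (η1 t 0) ∧
      HasValue L F₂ (η t) (w t) (w1 t L)) ∧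
    ∀ x ∈ Icc (0 : ℝ) L, η 0 x = η0 x ∧ w 0 x = w0 x

theorem memLp_of_cont {L : ℝ} {f : ℝ → ℝ} (hf : Continuous f) :
    MemLp f 2 (volume.restrict (Ioo (0 : ℝ) L)) := by
  obtain ⟨B, hB⟩ := isCompact_Icc.exists_bound_of_continuousOn
    (s := Icc (0 : ℝ) L) hf.continuousOn
  refine MemLp.of_bound hf.aestronglyMeasurable B ?_
  refine (ae_restrict_iff' measurableSet_Ioo).2 (Filter.Eventually.of_forall fun x hx => ?_)
  exact hB x (Ioo_subset_Icc_self hx)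

/-- integration against `g ∈ L²` as a functional -/
noncomputable def kerL {L : ℝ} {f : ℝ → ℝ} (hf : Continuous f) : L2 L →L[ℝ] ℝ :=
  innerSL ℝ ((memLp_of_cont (L := L) hf).toLp f)

theorem kerL_apply {L : ℝ} (hL : 0 < L) {f : ℝ → ℝ} (hf : Continuous f) {g : ℝ → ℝ} {u : L2 L}
    (hu : u =ᵐ[volume.restrict (Ioo (0 : ℝ) L)] g) :
    kerL hf u = ∫ x in (0 : ℝ)..L, f x * g x := by
  unfold kerL
  rw [innerSL_apply_apply, MeasureTheory.L2.inner_def, intervalIntegral.integral_of_le hL.le,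
    integral_Ioc_eq_integral_Ioo]
  refine integral_congr_ae ?_
  filter_upwards [hu, (memLp_of_cont (L := L) hf).coeFn_toLp] with x h1 h2
  rw [h1, h2]
  simp [mul_comm]

/-- **Negative answer to Q1.** For every `L > 0` there are continuous linear `F₁, F₂ : X₀ → ℝ` and
a `C²` function `w0` such that `(0, w0)` is in `X̄₂` and satisfies `F₁(0, w0) = F₂(0, w0) = 0`, but
for every `c ≠ 0` and every `T > 0` the closed loop has no solution on `[0,T]` with the initial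
datum `(0, c w0)`. -/
theorem result : ∀ L : ℝ, 0 < L → ∃ F₁ F₂ : X0 L →L[ℝ] ℝ, ∃ w0 : ℝ → ℝ,
    ContDiff ℝ 2 w0 ∧ InX2 L 0 w0 ∧ HasValue L F₁ 0 w0 0 ∧ HasValue L F₂ 0 w0 0 ∧
    ∀ c : ℝ, c ≠ 0 → ∀ T : ℝ, 0 < T →
      ¬ ∃ η w : ℝ → ℝ → ℝ, IsSolution L T F₁ F₂ 0 (fun x => c * w0 x) η w := by
  intro L hL
  obtain ⟨k, ρ, a, b, ε, d, α, β, w0, w01, w02, C, hC, hd⟩ := exists_data L hL
  have hw0L : MemLp w0 2 (volume.restrict (Ioo (0 : ℝ) L)) := memLp_of_cont hd.cw.continuous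
  refine ⟨(kerL hd.cβ).comp (ContinuousLinearMap.snd ℝ _ _),
    (kerL hd.cα).comp (ContinuousLinearMap.fst ℝ _ _), w0, hd.cw, ?_, ?_, ?_, ?_⟩
  · refine ⟨0, 0, w01, w02, ?_, hd.h2, rfl, rfl, hd.w00, hd.w0L, rfl, hd.w01L⟩
    exact ⟨fun x _ => hasDerivWithinAt_const x (Icc (0 : ℝ) L) (0 : ℝ), fun x _ => by simp,
      MemLp.zero⟩
  · refine ⟨0, hw0L.toLp w0, Lp.coeFn_zero _ _ _, hw0L.coeFn_toLp, ?_⟩
    have := kerL_apply hL hd.cβ (hw0L.coeFn_toLp)
    simpa [hd.comp] using this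
  · refine ⟨0, hw0L.toLp w0, Lp.coeFn_zero _ _ _, hw0L.coeFn_toLp, ?_⟩
    simp
  · rintro c hc T hT ⟨η, w, η1, η2, w1, w2, hs, hfb, hin⟩
    have hu : UniqueDiffOn ℝ (Icc (0 : ℝ) L) := uniqueDiffOn_Icc hL
    have h0T : (0 : ℝ) ∈ Icc (0 : ℝ) T := ⟨le_rfl, hT.le⟩
    have h00 : (0 : ℝ) ∈ Icc (0 : ℝ) L := ⟨le_rfl, hL.le⟩
    have hLL : L ∈ Icc (0 : ℝ) L := ⟨hL.le, le_rfl⟩
    refine no_ksol hL hC hd hc hT (η := η) (η1 := η1) (η2 := η2) (w := w) (w1 := w1) (w2 := w2)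
      ⟨dsol_open hL hT hs, ?_, ?_, fun x hx => (hin x hx).1, fun x hx => (hin x hx).2⟩
    · intro t ht
      rcases eq_or_lt_of_le ht.1 with h0 | h0
      · subst h0
        have e1 : η1 0 0 = 0 := by
          have h1 := (hs.h2η 0 h0T).deriv 0 h00
          have h2 : HasDerivWithinAt (η 0) 0 (Icc 0 L) 0 :=
            (hasDerivWithinAt_const (0 : ℝ) (Icc (0 : ℝ) L) (0 : ℝ)).congr
              (fun x hx => (hin x hx).1) (hin 0 h00).1
          exact (hu 0 h00).eq_deriv _ h1 h2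
        have e2 : (∫ x in (0 : ℝ)..L, β x * w 0 x) = c * ∫ x in (0 : ℝ)..L, β x * w0 x := by
          rw [← intervalIntegral.integral_const_mul]
          refine intervalIntegral.integral_congr fun x hx => ?_
          rw [uIcc_of_le hL.le] at hx
          rw [(hin x hx).2]
          ring
        rw [e1, e2, hd.comp, mul_zero]
      · obtain ⟨u₁, u₂, -, h2, h3⟩ := (hfb t ⟨h0, ht.2⟩).1
        rw [← h3, ← kerL_apply hL hd.cβ h2]
        rfl
    · intro t ht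
      rcases eq_or_lt_of_le ht.1 with h0 | h0
      · subst h0
        have e1 : w1 0 L = 0 := by
          have h1 := (hs.h2w 0 h0T).deriv L hLL
          have h2 : HasDerivWithinAt (w 0) (c * w01 L) (Icc 0 L) L :=
            ((hd.h2.deriv L hLL).const_mul c).congr
              (fun x hx => (hin x hx).2) (hin L hLL).2
          rw [(hu L hLL).eq_deriv _ h1 h2, hd.w01L, mul_zero]
        have e2 : (∫ x in (0 : ℝ)..L, α x * η 0 x) = 0 := by
          rw [intervalIntegral.integral_congr (g := fun _ => (0 : ℝ))]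
          · simp
          · intro x hx
            rw [uIcc_of_le hL.le] at hx
            simp only
            rw [(hin x hx).1]
            simp
        rw [e1, e2]
      · obtain ⟨u₁, u₂, h2, -, h3⟩ := (hfb t ⟨h0, ht.2⟩).2
        rw [← h3, ← kerL_apply hL hd.cα h2]
        rfl

end Pool.Agent.Results.MP_11a591_an.NoLocalSolution
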